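import Pool.Agent.Helper19.TGX.Goals

/-!
# Packet TGX-DCF (MP_a41896_nt, project TGX): the derivation on the coefficients
-/

set_option autoImplicit false

open Polynomial

namespace Pool.Agent.Helper13.TGX.DCF

open Pool.Agent.Helper19.TGX

theorem coeff_dcf {Ω : Type} [Field Ω] (δ : Ω → Ω) (h0 : δ 0 = 0) (p : Polynomial Ω) (i : ℕ) :
    (dcf δ p).coeff i = δ (p.coeff i) := by
  unfold dcf
  rw [finsetSum_coeff]
  simp only [coeff_C_mul_X_pow]
  rw [Finset.sum_ite_eq]
  split_ifs with h
  · rfl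
  · rw [Finset.mem_range, not_lt] at h
    rw [coeff_eq_zero_of_natDegree_lt (by omega), h0]

theorem t : Pool.Agent.Helper19.TGX.DCF := by
  intro K Ω _ _ _ δ
  have hc : ∀ (p : Polynomial Ω) (i : ℕ), (dcf δ p).coeff i = δ (p.coeff i) :=
    coeff_dcf δ (map_zero δ)
  refine ⟨hc, fun p q => ?_, fun p q => ?_, fun p => ?_, fun p => ?_, fun z => ?_⟩
  · ext i
    rw [coeff_add, hc, hc, hc, coeff_add, map_add]
  · ext i
    rw [coeff_add, hc, coeff_mul, coeff_mul, coeff_mul, map_sum, ← Finset.sum_add_distrib]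
    refine Finset.sum_congr rfl fun x _ => ?_
    rw [hc, hc, Derivation.leibniz, smul_eq_mul, smul_eq_mul]
    ring
  · ext i
    rw [hc, coeff_map, Derivation.map_algebraMap, coeff_zero]
  · ext i
    rw [coeff_derivative, hc, hc, coeff_derivative, Derivation.leibniz, smul_eq_mul, smul_eq_mul]
    have h1 : δ ((i : Ω) + 1) = 0 := by
      rw [map_add, Derivation.map_natCast, Derivation.map_one_eq_zero, add_zero]
    rw [h1, mul_zero, zero_add, mul_comm]
  · ext i
    rw [hc, coeff_C, coeff_C]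
    split_ifs
    · rfl
    · exact map_zero δ

end Pool.Agent.Helper13.TGX.DCF
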